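import Pool.Agent.Leo4.Stmts
import Pool.Agent.Helper68_Leo4.Basic

/-!
Module DNS: the number of residue classes modulo 6 of forms satisfying the conditions at 2 and 3.
-/

set_option autoImplicit false

namespace Pool.Agent.Leo4.H76

open Pool.Agent.Leo4

/-! ### nested sums -/

def sum2 (G : ℕ → ℕ) : ℕ := G 0 + G 1

def sum3 (G : ℕ → ℕ) : ℕ := G 0 + G 1 + G 2

theorem sz2 {F : ZMod 2 → ℕ} {G : ℕ → ℕ} (h : ∀ x, F x = G x.val) : ∑ x, F x = sum2 G := by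
  rw [Finset.sum_congr rfl (fun x _ => h x)]
  exact Fin.sum_univ_two (fun x : Fin 2 => G x.val)

theorem sz3 {F : ZMod 3 → ℕ} {G : ℕ → ℕ} (h : ∀ x, F x = G x.val) : ∑ x, F x = sum3 G := by
  rw [Finset.sum_congr rfl (fun x _ => h x)]
  exact Fin.sum_univ_three (fun x : Fin 3 => G x.val)

/-! ### the coefficients of the Hessian, with `-1 = 5` modulo 6 -/

def p1 (a1 a2 b1 b2 c1 c2 : ℕ) : ℕ := b1 * b1 + b2 * b2 + 5 * (a1 * c1 + a2 * c2)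

def p2 (a1 a2 b1 b2 c1 c2 : ℕ) : ℕ :=
  b1 * b2 + b2 * b1 + b2 * b2 + 5 * (a1 * c2 + a2 * c1 + a2 * c2)

def q1 (a1 a2 b1 b2 c1 c2 d1 d2 : ℕ) : ℕ := b1 * c1 + b2 * c2 + 5 * (a1 * d1 + a2 * d2)

def q2 (a1 a2 b1 b2 c1 c2 d1 d2 : ℕ) : ℕ :=
  b1 * c2 + b2 * c1 + b2 * c2 + 5 * (a1 * d2 + a2 * d1 + a2 * d2)

/-- the first coordinate of the discriminant -/
def m1 (P1 P2 Q1 Q2 R1 R2 : ℕ) : ℕ := 4 * (P1 * R1 + P2 * R2) + 5 * (Q1 * Q1 + Q2 * Q2)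

/-- the second coordinate of the discriminant -/
def m2 (P1 P2 Q1 Q2 R1 R2 : ℕ) : ℕ :=
  4 * (P1 * R2 + P2 * R1 + P2 * R2) + 5 * (Q1 * Q2 + Q2 * Q1 + Q2 * Q2)

/-- nonsquares modulo 3 -/
def nsq (x y : ℕ) : Bool := !(Nat.beq (y % 3) 0) && !(Nat.beq (y % 3) (x % 3))

/-- nonzero modulo 2 -/
def nz (x y : ℕ) : Bool := !(Nat.beq (x % 2) 0 && Nat.beq (y % 2) 0)

/-- no zeros modulo 2 -/
def ans (P1 P2 Q1 Q2 R1 R2 : ℕ) : Bool :=
  nz P1 P2 && nz R1 R2 && nz (P1 + Q1 + R1) (P2 + Q2 + R2) &&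
    nz (P1 + Q2 + (R1 + R2)) (P2 + (Q1 + Q2) + (R1 + 2 * R2)) &&
    nz (P1 + (Q1 + Q2) + (2 * R1 + 3 * R2)) (P2 + (Q1 + 2 * Q2) + (3 * R1 + 5 * R2))

def f3 (a1 a2 b1 b2 c1 c2 d1 d2 : ℕ) : Bool :=
  nsq (m1 (p1 a1 a2 b1 b2 c1 c2) (p2 a1 a2 b1 b2 c1 c2) (q1 a1 a2 b1 b2 c1 c2 d1 d2)
    (q2 a1 a2 b1 b2 c1 c2 d1 d2) (p1 b1 b2 c1 c2 d1 d2) (p2 b1 b2 c1 c2 d1 d2))
    (m2 (p1 a1 a2 b1 b2 c1 c2) (p2 a1 a2 b1 b2 c1 c2) (q1 a1 a2 b1 b2 c1 c2 d1 d2)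
    (q2 a1 a2 b1 b2 c1 c2 d1 d2) (p1 b1 b2 c1 c2 d1 d2) (p2 b1 b2 c1 c2 d1 d2))

def f2 (a1 a2 b1 b2 c1 c2 d1 d2 : ℕ) : Bool :=
  ans (p1 a1 a2 b1 b2 c1 c2) (p2 a1 a2 b1 b2 c1 c2) (q1 a1 a2 b1 b2 c1 c2 d1 d2)
    (q2 a1 a2 b1 b2 c1 c2 d1 d2) (p1 b1 b2 c1 c2 d1 d2) (p2 b1 b2 c1 c2 d1 d2)

theorem count3 : (sum3 fun a1 => sum3 fun a2 => sum3 fun b1 => sum3 fun b2 =>
    sum3 fun c1 => sum3 fun c2 => sum3 fun d1 => sum3 fun d2 =>
      cond (f3 a1 a2 b1 b2 c1 c2 d1 d2) 1 0) = 2880 := by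
  decide +kernel

theorem count2 : (sum2 fun a1 => sum2 fun a2 => sum2 fun b1 => sum2 fun b2 =>
    sum2 fun c1 => sum2 fun c2 => sum2 fun d1 => sum2 fun d2 =>
      cond (f2 a1 a2 b1 b2 c1 c2 d1 d2) 1 0) = 90 := by
  decide +kernel

/-- the quadruples of pairs -/
abbrev Q4 (q : ℕ) : Type :=
  (ZMod q × ZMod q) × (ZMod q × ZMod q) × (ZMod q × ZMod q) × (ZMod q × ZMod q)

/-- a function of the eight representatives -/
def ap {q : ℕ} (f : ℕ → ℕ → ℕ → ℕ → ℕ → ℕ → ℕ → ℕ → Bool) (w : Q4 q) : Bool :=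
  f w.1.1.val w.1.2.val w.2.1.1.val w.2.1.2.val w.2.2.1.1.val w.2.2.1.2.val w.2.2.2.1.val
    w.2.2.2.2.val

def S3 : Finset (Q4 3) := Finset.univ.filter fun w => ap f3 w = true

def S2 : Finset (Q4 2) := Finset.univ.filter fun w => ap f2 w = true

theorem card_S3 : S3.card = 2880 := by
  rw [← count3, S3, Finset.card_filter]
  have h : ∀ w : Q4 3, (if ap f3 w = true then 1 else 0) = cond (ap f3 w) 1 0 := by
    intro w
    cases ap f3 w <;> rfl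
  simp only [h, Fintype.sum_prod_type]
  exact sz3 fun a1 => sz3 fun a2 => sz3 fun b1 => sz3 fun b2 => sz3 fun c1 => sz3 fun c2 =>
    sz3 fun d1 => sz3 fun d2 => rfl

theorem card_S2 : S2.card = 90 := by
  rw [← count2, S2, Finset.card_filter]
  have h : ∀ w : Q4 2, (if ap f2 w = true then 1 else 0) = cond (ap f2 w) 1 0 := by
    intro w
    cases ap f2 w <;> rfl
  simp only [h, Fintype.sum_prod_type]
  exact sz2 fun a1 => sz2 fun a2 => sz2 fun b1 => sz2 fun b2 => sz2 fun c1 => sz2 fun c2 =>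
    sz2 fun d1 => sz2 fun d2 => rfl

/-! ### the Chinese remainder theorem -/

def cr (s : ZMod 2) (t : ZMod 3) : ZMod 6 := ((3 * s.val + 4 * t.val : ℕ) : ZMod 6)

theorem cr_int (x : ℤ) : (x : ZMod 6) = cr x x := by
  have h2 : (((x : ZMod 2).val : ℕ) : ℤ) = x % 2 := by
    rw [ZMod.val_intCast]
    rfl
  have h3 : (((x : ZMod 3).val : ℕ) : ℤ) = x % 3 := by
    rw [ZMod.val_intCast]
    rfl
  unfold cr
  have h : (((3 * (x : ZMod 2).val + 4 * (x : ZMod 3).val : ℕ) : ℤ) : ZMod 6) =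
      ((3 * (x : ZMod 2).val + 4 * (x : ZMod 3).val : ℕ) : ZMod 6) := by
    rw [Int.cast_natCast]
  rw [← h]
  refine (ZMod.intCast_eq_intCast_iff_dvd_sub _ _ 6).2 ?_
  push_cast
  rw [h2, h3]
  omega

def cr4 (w : Q4 2 × Q4 3) : Q4 6 :=
  ((cr w.1.1.1 w.2.1.1, cr w.1.1.2 w.2.1.2), (cr w.1.2.1.1 w.2.2.1.1, cr w.1.2.1.2 w.2.2.1.2),
    (cr w.1.2.2.1.1 w.2.2.2.1.1, cr w.1.2.2.1.2 w.2.2.2.1.2),
    (cr w.1.2.2.2.1 w.2.2.2.2.1, cr w.1.2.2.2.2 w.2.2.2.2.2))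

theorem resV_cr (v : V) : resV 6 v = cr4 (resV 2 v, resV 3 v) := by
  simp only [resV, cr4, cr_int]

/-! ### reduction of the Hessian -/

section red

variable {n : ℕ} [NeZero n] (h5 : (5 : ZMod n) = -1)

include h5

theorem p1_cast (a b c : O) :
    ((p1 (a.re : ZMod n).val (a.im : ZMod n).val (b.re : ZMod n).val (b.im : ZMod n).val
      (c.re : ZMod n).val (c.im : ZMod n).val : ℕ) : ZMod n) = ((fP a b c).re : ZMod n) := by
  unfold p1 fP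
  simp only [pow_two, QuadraticAlgebra.re_sub, QuadraticAlgebra.re_mul]
  push_cast
  simp only [ZMod.natCast_zmod_val, h5]
  ring

theorem p2_cast (a b c : O) :
    ((p2 (a.re : ZMod n).val (a.im : ZMod n).val (b.re : ZMod n).val (b.im : ZMod n).val
      (c.re : ZMod n).val (c.im : ZMod n).val : ℕ) : ZMod n) = ((fP a b c).im : ZMod n) := by
  unfold p2 fP
  simp only [pow_two, QuadraticAlgebra.im_sub, QuadraticAlgebra.im_mul]
  push_cast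
  simp only [ZMod.natCast_zmod_val, h5]
  ring

theorem q1_cast (a b c d : O) :
    ((q1 (a.re : ZMod n).val (a.im : ZMod n).val (b.re : ZMod n).val (b.im : ZMod n).val
      (c.re : ZMod n).val (c.im : ZMod n).val (d.re : ZMod n).val (d.im : ZMod n).val : ℕ) :
      ZMod n) = ((fQ a b c d).re : ZMod n) := by
  unfold q1 fQ
  simp only [QuadraticAlgebra.re_sub, QuadraticAlgebra.re_mul]
  push_cast
  simp only [ZMod.natCast_zmod_val, h5]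
  ring

theorem q2_cast (a b c d : O) :
    ((q2 (a.re : ZMod n).val (a.im : ZMod n).val (b.re : ZMod n).val (b.im : ZMod n).val
      (c.re : ZMod n).val (c.im : ZMod n).val (d.re : ZMod n).val (d.im : ZMod n).val : ℕ) :
      ZMod n) = ((fQ a b c d).im : ZMod n) := by
  unfold q2 fQ
  simp only [QuadraticAlgebra.im_sub, QuadraticAlgebra.im_mul]
  push_cast
  simp only [ZMod.natCast_zmod_val, h5]
  ring

omit [NeZero n] in
theorem m1_cast (P Q R : O) (P1 P2 Q1 Q2 R1 R2 : ℕ) (hP1 : (P1 : ZMod n) = P.re)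
    (hP2 : (P2 : ZMod n) = P.im) (hQ1 : (Q1 : ZMod n) = Q.re) (hQ2 : (Q2 : ZMod n) = Q.im)
    (hR1 : (R1 : ZMod n) = R.re) (hR2 : (R2 : ZMod n) = R.im) :
    ((m1 P1 P2 Q1 Q2 R1 R2 : ℕ) : ZMod n) = ((4 * P * R - Q ^ 2 : O).re : ZMod n) ∧
    ((m2 P1 P2 Q1 Q2 R1 R2 : ℕ) : ZMod n) = ((4 * P * R - Q ^ 2 : O).im : ZMod n) := by
  have e : (4 * P * R - Q ^ 2 : O) = P * R + P * R + P * R + P * R - Q * Q := by ring
  rw [e]
  unfold m1 m2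
  simp only [QuadraticAlgebra.re_sub, QuadraticAlgebra.im_sub, QuadraticAlgebra.re_mul,
    QuadraticAlgebra.im_mul, QuadraticAlgebra.re_add, QuadraticAlgebra.im_add]
  push_cast
  simp only [hP1, hP2, hQ1, hQ2, hR1, hR2, h5]
  constructor <;> ring

end red

theorem dvd_of {p : ℕ} (z : O) (h1 : (p : ℤ) ∣ z.re) (h2 : (p : ℤ) ∣ z.im) : ((p : ℕ) : O) ∣ z := by
  obtain ⟨x, hx⟩ := h1
  obtain ⟨y, hy⟩ := h2
  refine ⟨⟨x, y⟩, ?_⟩
  have e : ((p : ℕ) : O) * (⟨x, y⟩ : O) = p • (⟨x, y⟩ : O) := (nsmul_eq_mul _ _).symm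
  rw [e]
  ext
  · rw [QuadraticAlgebra.re_smul, nsmul_eq_mul]
    exact hx
  · rw [QuadraticAlgebra.im_smul, nsmul_eq_mul]
    exact hy

theorem nz_of (z : O) (x y : ℕ) (hx : (x : ZMod 2) = z.re) (hy : (y : ZMod 2) = z.im)
    (hz : ¬ (2 : O) ∣ z) : nz x y = true := by
  by_contra hc
  have h1 : x % 2 = 0 ∧ y % 2 = 0 := by
    unfold nz at hc
    simpa using hc
  apply hz
  have e1 : ((x : ℤ) : ZMod 2) = z.re := by rw [Int.cast_natCast]; exact hx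
  have e2 : ((y : ℤ) : ZMod 2) = z.im := by rw [Int.cast_natCast]; exact hy
  have d1 := (ZMod.intCast_eq_intCast_iff_dvd_sub _ _ 2).1 e1
  have d2 := (ZMod.intCast_eq_intCast_iff_dvd_sub _ _ 2).1 e2
  have := dvd_of (p := 2) z (by push_cast at d1 ⊢; omega) (by push_cast at d2 ⊢; omega)
  exact_mod_cast this

theorem ans_of (P Q R : O) (P1 P2 Q1 Q2 R1 R2 : ℕ) (hP1 : (P1 : ZMod 2) = P.re)
    (hP2 : (P2 : ZMod 2) = P.im) (hQ1 : (Q1 : ZMod 2) = Q.re) (hQ2 : (Q2 : ZMod 2) = Q.im)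
    (hR1 : (R1 : ZMod 2) = R.re) (hR2 : (R2 : ZMod 2) = R.im)
    (h : ∀ x y : O, (2 : O) ∣ P * x ^ 2 + Q * x * y + R * y ^ 2 → (2 : O) ∣ x ∧ (2 : O) ∣ y) :
    ans P1 P2 Q1 Q2 R1 R2 = true := by
  have h1 : ¬ (2 : O) ∣ 1 := by
    rintro ⟨z, hz⟩
    have := congrArg QuadraticAlgebra.re hz
    have e : (2 : O) * z = 2 • z := by rw [nsmul_eq_mul]; push_cast; rfl
    rw [e, QuadraticAlgebra.re_smul, QuadraticAlgebra.re_one, nsmul_eq_mul] at this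
    push_cast at this
    omega
  unfold ans
  simp only [Bool.and_eq_true]
  refine ⟨⟨⟨⟨?_, ?_⟩, ?_⟩, ?_⟩, ?_⟩
  · refine nz_of P _ _ hP1 hP2 (fun hd => h1 (h 1 0 ?_).1)
    have e : P * 1 ^ 2 + Q * 1 * 0 + R * 0 ^ 2 = P := by ring
    rw [e]
    exact hd
  · refine nz_of R _ _ hR1 hR2 (fun hd => h1 (h 0 1 ?_).2)
    have e : P * 0 ^ 2 + Q * 0 * 1 + R * 1 ^ 2 = R := by ring
    rw [e]
    exact hd
  · refine nz_of (P * 1 ^ 2 + Q * 1 * 1 + R * 1 ^ 2) _ _ ?_ ?_ (fun hd => h1 (h 1 1 hd).1)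
    · have e : P * 1 ^ 2 + Q * 1 * 1 + R * 1 ^ 2 = P + Q + R := by ring
      rw [e]
      simp only [QuadraticAlgebra.re_add]
      push_cast
      rw [hP1, hQ1, hR1]
    · have e : P * 1 ^ 2 + Q * 1 * 1 + R * 1 ^ 2 = P + Q + R := by ring
      rw [e]
      simp only [QuadraticAlgebra.im_add]
      push_cast
      rw [hP2, hQ2, hR2]
  · have e : P * 1 ^ 2 + Q * 1 * (⟨0, 1⟩ : O) + R * (⟨0, 1⟩ : O) ^ 2 =
        P + Q * ⟨0, 1⟩ + R * (⟨0, 1⟩ * ⟨0, 1⟩) := by ring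
    refine nz_of (P * 1 ^ 2 + Q * 1 * (⟨0, 1⟩ : O) + R * (⟨0, 1⟩ : O) ^ 2) _ _ ?_ ?_
      (fun hd => h1 (h 1 ⟨0, 1⟩ hd).1)
    · rw [e]
      simp only [QuadraticAlgebra.re_add, QuadraticAlgebra.re_mul, QuadraticAlgebra.im_mul]
      push_cast
      rw [hP1, hQ2, hR1, hR2]
      ring
    · rw [e]
      simp only [QuadraticAlgebra.im_add, QuadraticAlgebra.re_mul, QuadraticAlgebra.im_mul]
      push_cast
      rw [hP2, hQ1, hQ2, hR1, hR2]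
      ring
  · have e : P * 1 ^ 2 + Q * 1 * (⟨1, 1⟩ : O) + R * (⟨1, 1⟩ : O) ^ 2 =
        P + Q * ⟨1, 1⟩ + R * (⟨1, 1⟩ * ⟨1, 1⟩) := by ring
    refine nz_of (P * 1 ^ 2 + Q * 1 * (⟨1, 1⟩ : O) + R * (⟨1, 1⟩ : O) ^ 2) _ _ ?_ ?_
      (fun hd => h1 (h 1 ⟨1, 1⟩ hd).1)
    · rw [e]
      simp only [QuadraticAlgebra.re_add, QuadraticAlgebra.re_mul, QuadraticAlgebra.im_mul]
      push_cast
      rw [hP1, hQ1, hQ2, hR1, hR2]
      ring
    · rw [e]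
      simp only [QuadraticAlgebra.im_add, QuadraticAlgebra.re_mul, QuadraticAlgebra.im_mul]
      push_cast
      rw [hP2, hQ1, hQ2, hR1, hR2]
      ring

theorem nsq_of (M : O) (x y : ℕ) (hx : (x : ZMod 3) = M.re) (hy : (y : ZMod 3) = M.im)
    (h : ∀ z : O, ¬ (3 : O) ∣ M - z ^ 2) : nsq x y = true := by
  have e1 : ((x : ℤ) : ZMod 3) = M.re := by rw [Int.cast_natCast]; exact hx
  have e2 : ((y : ℤ) : ZMod 3) = M.im := by rw [Int.cast_natCast]; exact hy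
  have d1 := (ZMod.intCast_eq_intCast_iff_dvd_sub _ _ 3).1 e1
  have d2 := (ZMod.intCast_eq_intCast_iff_dvd_sub _ _ 3).1 e2
  have key : ∀ s t : ℤ, ¬ ((3 : ℤ) ∣ M.re - (s * s + t * t) ∧
      (3 : ℤ) ∣ M.im - (s * t + t * s + t * t)) := by
    rintro s t ⟨h1, h2⟩
    apply h ⟨s, t⟩
    have := dvd_of (p := 3) (M - (⟨s, t⟩ : O) ^ 2) (by
      rw [pow_two, QuadraticAlgebra.re_sub, QuadraticAlgebra.re_mul]
      push_cast
      rw [one_mul]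
      exact h1) (by
      rw [pow_two, QuadraticAlgebra.im_sub, QuadraticAlgebra.im_mul]
      push_cast
      rw [one_mul]
      exact h2)
    exact_mod_cast this
  have k0 := key 0 0
  have k1 := key 1 0
  have k2 := key 0 1
  have k3 := key 1 1
  have k4 := key 1 2
  have h1 : ¬ (y % 3 = 0) ∧ ¬ (y % 3 = x % 3) := by
    push_cast at d1 d2
    omega
  simp only [nsq, Bool.and_eq_true, Bool.not_eq_true', ← Bool.not_eq_true, Nat.beq_eq]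
  exact h1

theorem mem_S2 (a b c d : O)
    (h : ∀ x y : O, (2 : O) ∣ fP a b c * x ^ 2 + fQ a b c d * x * y + fR b c d * y ^ 2 →
      (2 : O) ∣ x ∧ (2 : O) ∣ y) : resV 2 (a, b, c, d) ∈ S2 := by
  have h5 : (5 : ZMod 2) = -1 := by decide
  refine Finset.mem_filter.2 ⟨Finset.mem_univ _, ?_⟩
  exact ans_of (fP a b c) (fQ a b c d) (fR b c d) _ _ _ _ _ _ (p1_cast h5 a b c)
    (p2_cast h5 a b c) (q1_cast h5 a b c d) (q2_cast h5 a b c d) (p1_cast h5 b c d)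
    (p2_cast h5 b c d) h

theorem mem_S3 (a b c d : O) (h : ∀ x : O, ¬ (3 : O) ∣ fM a b c d - x ^ 2) :
    resV 3 (a, b, c, d) ∈ S3 := by
  have h5 : (5 : ZMod 3) = -1 := by decide
  refine Finset.mem_filter.2 ⟨Finset.mem_univ _, ?_⟩
  have hm := m1_cast h5 (fP a b c) (fQ a b c d) (fR b c d) _ _ _ _ _ _ (p1_cast h5 a b c)
    (p2_cast h5 a b c) (q1_cast h5 a b c d) (q2_cast h5 a b c d) (p1_cast h5 b c d)
    (p2_cast h5 b c d)
  exact nsq_of (fM a b c d) _ _ hm.1 hm.2 h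

theorem img {α β γ : Type} (s : Finset α) (t : Finset β) (f : α × β → γ) (m n : ℕ)
    (hm : s.card = m) (hn : t.card = n) :
    ∃ S : Finset γ, S.card ≤ m * n ∧ ∀ x ∈ s, ∀ y ∈ t, f (x, y) ∈ S := by
  classical
  refine ⟨(s ×ˢ t).image f, ?_, fun x hx y hy => ?_⟩
  · refine Finset.card_image_le.trans ?_
    rw [Finset.card_product, hm, hn]
  · exact Finset.mem_image.2 ⟨(x, y), Finset.mem_product.2 ⟨hx, hy⟩, rfl⟩

theorem dns : DnsStmt := by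
  obtain ⟨S, hc, hS⟩ := img S2 S3 cr4 90 2880 card_S2 card_S3
  refine ⟨S, hc.trans (by norm_num), fun a b c d h2 h3 => ?_⟩
  have h := hS _ (mem_S2 a b c d h2) _ (mem_S3 a b c d h3)
  rw [resV_cr]
  exact h

end Pool.Agent.Leo4.H76
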